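import Pool.Agent.W325.KZ.Defs

/-!
# KZ-STEP (MP_9bdf03_pr): adding the special top coefficients
-/

set_option autoImplicit false

open Finset MeasureTheory ProbabilityTheory Filter Topology

namespace Pool.Agent.W494.KZ

open Pool.Agent.W325.KZ

lemma zr_mono {f : ℝ → ℝ} {I : Set ℝ} {k l : ℕ} (h : l ≤ k) (hz : Zr f I k) : Zr f I l := by
  obtain ⟨S, h1, h2⟩ := hz
  exact ⟨S, h.trans h1, h2⟩

lemma pol_add (a : ℕ → ℝ) (n m : ℕ) (x : ℝ) :
    pol a (n + m) x = pol a n x + ∑ k ∈ range m, a (n + k) * x ^ (n + k) := by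
  unfold pol
  rw [Finset.sum_range_add]

lemma qn_split (a : ℕ → ℝ) (n m : ℕ) (y : ℝ) :
    pol (rv a (n + m)) (n + m) y = pol (rv a (n + m)) m y + y ^ m * pol (rv a n) n y := by
  have h : pol (rv a (n + m)) (n + m) y = pol (rv a (n + m)) (m + n) y := by
    rw [Nat.add_comm n m]
  rw [h, pol_add]
  congr 1
  unfold pol
  rw [Finset.mul_sum]
  refine Finset.sum_congr rfl fun k hk => ?_
  have hk' : k < n := Finset.mem_range.1 hk
  have h2 : rv a (n + m) (m + k) = rv a n k := by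
    unfold rv
    congr 1
    omega
  rw [h2, pow_add]
  ring

lemma pol_cd (a : ℕ → ℝ) (n : ℕ) : ContDiff ℝ 1 (pol a n) := by
  unfold pol
  fun_prop

lemma pol_cont (a : ℕ → ℝ) (n : ℕ) : Continuous (pol a n) := (pol_cd a n).continuous

lemma yy_lt {j : ℕ} : yy j < 1 := by
  unfold yy
  have := Real.exp_pos (-(Real.pi / 6 * j))
  linarith

lemma yy_mono : StrictMono yy := by
  intro i j hij
  unfold yy
  have h1 : (i : ℝ) < j := by exact_mod_cast hij
  have h2 : Real.pi / 6 * i < Real.pi / 6 * j := by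
    apply mul_lt_mul_of_pos_left h1
    have := Real.pi_pos
    positivity
  have h3 : Real.exp (-(Real.pi / 6 * j)) < Real.exp (-(Real.pi / 6 * i)) := by
    apply Real.exp_lt_exp.2
    linarith
  linarith

lemma yy_pos {j : ℕ} (hj : 1 ≤ j) : 0 < yy j := by
  have h0 : yy 0 = 0 := by
    unfold yy
    simp
  have := yy_mono (show 0 < j by omega)
  linarith

lemma pow_le_exp {x s : ℝ} (hx : 0 ≤ x) (hxs : x ≤ 1 - s) (m : ℕ) :
    x ^ m ≤ Real.exp (-(s * m)) := by
  have h1 : x ≤ Real.exp (-s) := by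
    have := Real.add_one_le_exp (-s)
    linarith
  calc x ^ m ≤ (Real.exp (-s)) ^ m := pow_le_pow_left₀ hx h1 m
    _ = Real.exp (-(s * m)) := by
      rw [← Real.exp_nat_mul]
      congr 1
      ring

lemma abs_pol_le {a : ℕ → ℝ} {n : ℕ} (h : ∀ k < n, |a k| ≤ n) {y : ℝ} (hy : 0 ≤ y) (hy1 : y ≤ 1) :
    |pol (rv a n) n y| ≤ (n : ℝ) * n := by
  unfold pol
  calc |∑ k ∈ range n, rv a n k * y ^ k| ≤ ∑ k ∈ range n, |rv a n k * y ^ k| :=
        Finset.abs_sum_le_sum_abs _ _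
    _ ≤ ∑ _k ∈ range n, (n : ℝ) := by
        apply Finset.sum_le_sum
        intro k hk
        have hk' : k < n := Finset.mem_range.1 hk
        rw [abs_mul]
        have h1 : |rv a n k| ≤ n := by
          unfold rv
          apply h
          omega
        have h2 : |y ^ k| ≤ 1 := by
          rw [abs_of_nonneg (pow_nonneg hy k)]
          exact pow_le_one₀ hy hy1
        calc |rv a n k| * |y ^ k| ≤ n * 1 := by
              apply mul_le_mul h1 h2 (abs_nonneg _) (Nat.cast_nonneg _)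
          _ = n := mul_one _
    _ = (n : ℝ) * n := by simp

lemma abs_top_le {a : ℕ → ℝ} {n m : ℕ} {B : ℝ} (h : ∀ k < m, |rv a (n + m) k| ≤ B)
    {x : ℝ} (hx : |x| ≤ 1) :
    |∑ k ∈ range m, a (n + k) * x ^ (n + k)| ≤ |x| ^ n * (m * B) := by
  calc |∑ k ∈ range m, a (n + k) * x ^ (n + k)| ≤ ∑ k ∈ range m, |a (n + k) * x ^ (n + k)| :=
        Finset.abs_sum_le_sum_abs _ _
    _ ≤ ∑ _k ∈ range m, |x| ^ n * B := by
        apply Finset.sum_le_sum
        intro k hk
        have hk' : k < m := Finset.mem_range.1 hk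
        have h1 : |a (n + k)| ≤ B := by
          have h2 := h (m - 1 - k) (by omega)
          unfold rv at h2
          have h3 : n + m - 1 - (m - 1 - k) = n + k := by omega
          rw [h3] at h2
          exact h2
        rw [abs_mul, abs_pow, pow_add]
        have h4 : |x| ^ k ≤ 1 := pow_le_one₀ (abs_nonneg x) hx
        have h5 : 0 ≤ |x| ^ n := by positivity
        have h6 : |x| ^ n * |x| ^ k ≤ |x| ^ n := by
          calc |x| ^ n * |x| ^ k ≤ |x| ^ n * 1 := by gcongr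
            _ = |x| ^ n := mul_one _
        calc |a (n + k)| * (|x| ^ n * |x| ^ k) ≤ B * (|x| ^ n) := by
              apply mul_le_mul h1 h6 (by positivity)
              exact le_trans (abs_nonneg _) h1
          _ = |x| ^ n * B := by ring
    _ = |x| ^ n * (m * B) := by
        simp
        ring

lemma ev1 (C : ℝ) (K : ℕ) : ∃ q₀ : ℕ, ∀ q : ℕ, q₀ ≤ q →
    2 ≤ q ∧ 2 * C ≤ q ∧ C * (q : ℝ) ^ 17 * Real.exp (-(q : ℝ)) < 1 ∧
      4 * (q : ℝ) ^ (2 * K) * Real.exp (-(q : ℝ)) < 1 := by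
  have h1 : ∀ᶠ q : ℕ in atTop, 2 ≤ q := eventually_ge_atTop 2
  have h2 : ∀ᶠ q : ℕ in atTop, 2 * C ≤ q := by
    exact tendsto_natCast_atTop_atTop.eventually_ge_atTop (2 * C)
  have h3 : ∀ᶠ q : ℕ in atTop, C * (q : ℝ) ^ 17 * Real.exp (-(q : ℝ)) < 1 := by
    have := ((Real.tendsto_pow_mul_exp_neg_atTop_nhds_zero 17).comp
      tendsto_natCast_atTop_atTop (α := ℕ)).const_mul C
    rw [mul_zero] at this
    have h := this.eventually_lt_const (show (0 : ℝ) < 1 by norm_num)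
    filter_upwards [h] with q hq
    simp only [Function.comp] at hq
    linarith [hq, mul_assoc C ((q : ℝ) ^ 17) (Real.exp (-(q : ℝ)))]
  have h4 : ∀ᶠ q : ℕ in atTop, 4 * (q : ℝ) ^ (2 * K) * Real.exp (-(q : ℝ)) < 1 := by
    have := ((Real.tendsto_pow_mul_exp_neg_atTop_nhds_zero (2 * K)).comp
      tendsto_natCast_atTop_atTop (α := ℕ)).const_mul 4
    rw [mul_zero] at this
    have h := this.eventually_lt_const (show (0 : ℝ) < 1 by norm_num)
    filter_upwards [h] with q hq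
    simp only [Function.comp] at hq
    linarith [hq, mul_assoc 4 ((q : ℝ) ^ (2 * K)) (Real.exp (-(q : ℝ)))]
  obtain ⟨q₀, hq₀⟩ := eventually_atTop.1 (h1.and (h2.and (h3.and h4)))
  exact ⟨q₀, fun q hq => hq₀ q hq⟩

theorem step (hT : S_STAB) (hA : S_ALT) (ha : S_SPLA) (hb : S_SPLB) : S_STEP := by
  intro C K hC hK
  obtain ⟨q₀, hq₀⟩ := ev1 C K
  refine ⟨q₀, fun q hq n hn1 hn2 a K₁ T J hJ hexp hG hS k hk => ?_⟩
  obtain ⟨hq2, hqC, hq3, hq4⟩ := hq₀ q hq
  obtain ⟨g1, g2, g3, g4, g5, g6⟩ := hG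
  obtain ⟨s1, s2, s3⟩ := hS
  have hq2' : (2 : ℝ) ≤ q := by exact_mod_cast hq2
  have hq0 : (0 : ℝ) < q := by linarith
  have hq1 : (1 : ℝ) ≤ q := by linarith
  have hqn : 1 ≤ n := le_trans (Nat.one_le_pow _ _ (by omega)) hn1
  set m : ℕ := q ^ 8 with hm
  have hmr : (m : ℝ) = (q : ℝ) ^ 8 := by rw [hm]; push_cast; rfl
  have hn1' : (q : ℝ) ^ 50 ≤ n := by
    have h1 : (q : ℝ) ^ 50 ≤ (q : ℝ) ^ K := pow_le_pow_right₀ hq1 hK
    have h2 : ((q ^ K : ℕ) : ℝ) ≤ n := by exact_mod_cast hn1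
    push_cast at h2
    linarith
  have hn2' : (n : ℝ) ≤ 2 * (q : ℝ) ^ K := by exact_mod_cast hn2
  have hn0 : (0 : ℝ) ≤ n := Nat.cast_nonneg n
  -- the radius
  have hr_pos : 0 < rr q := by
    unfold rr
    have : 1 / (q : ℝ) ^ 12 < 1 := by
      rw [div_lt_one (by positivity)]
      exact one_lt_pow₀ (by linarith) (by norm_num)
    linarith
  have hr_lt : rr q < 1 := by
    unfold rr
    have : 0 < 1 / (q : ℝ) ^ 12 := by positivity
    linarith
  have hrm : 1 / 2 ≤ (rr q) ^ m := by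
    have h1 : 1 + (m : ℝ) * (-(1 / (q : ℝ) ^ 12)) ≤ (1 + (-(1 / (q : ℝ) ^ 12))) ^ m := by
      apply one_add_mul_le_pow
      have : 1 / (q : ℝ) ^ 12 ≤ 1 := by
        rw [div_le_one (by positivity)]
        exact one_le_pow₀ hq1
      linarith
    have h2 : (m : ℝ) * (1 / (q : ℝ) ^ 12) ≤ 1 / 2 := by
      rw [hmr]
      have h3 : (q : ℝ) ^ 8 * (1 / (q : ℝ) ^ 12) = 1 / (q : ℝ) ^ 4 := by
        field_simp
      rw [h3]
      apply one_div_le_one_div_of_le (by norm_num)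
      calc (2 : ℝ) ≤ q := hq2'
        _ = (q : ℝ) ^ 1 := (pow_one _).symm
        _ ≤ (q : ℝ) ^ 4 := pow_le_pow_right₀ hq1 (by norm_num)
    unfold rr
    have h4 : (1 + (-(1 / (q : ℝ) ^ 12))) ^ m = (1 - 1 / (q : ℝ) ^ 12) ^ m := by
      congr 1
    rw [h4] at h1
    linarith
  -- (i)
  obtain ⟨k₁, k₂, k₃, hk0, hz1, hz2, hz3⟩ := ha a n K₁ T (rr q) hqn hr_pos hr_lt g1 g2
  -- (ii)
  have hZ1 : Zr (pol a (n + m)) (Set.Icc (-1) 1) (k₁ - 2) := by
    have h := hT (pol a n) (fun x => ∑ k ∈ range m, a (n + k) * x ^ (n + k)) (-1) 1 k₁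
      (by norm_num) (pol_cd a n) (by fun_prop) ?_ hz1
    · have he : (fun x => pol a n x + ∑ k ∈ range m, a (n + k) * x ^ (n + k)) =
          pol a (n + m) := by
        funext x
        rw [pol_add]
      rw [← he]
      exact h
    · intro x hx hdx
      have hx1 : |x| ≤ 1 := abs_le.2 ⟨hx.1, hx.2⟩
      have hb1 := abs_top_le (a := a) (n := n) (m := m) (B := C * m) s3 hx1
      have hmm : (m : ℝ) * (C * m) = C * (q : ℝ) ^ 16 := by
        rw [hmr]; ring
      rw [hmm] at hb1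
      by_cases hc : 1 - 1 / (q : ℝ) ^ 40 ≤ |x|
      · have h1 : (q : ℝ) ^ 17 < |pol a n x| := by
          by_contra hcon
          exact g4 ⟨x, hc, hx1, hdx, not_lt.1 hcon⟩
        have h2 : |x| ^ n * (C * (q : ℝ) ^ 16) ≤ (q : ℝ) ^ 17 := by
          have h3 : |x| ^ n ≤ 1 := pow_le_one₀ (abs_nonneg x) hx1
          calc |x| ^ n * (C * (q : ℝ) ^ 16) ≤ 1 * (C * (q : ℝ) ^ 16) := by gcongr
            _ = C * (q : ℝ) ^ 16 := one_mul _
            _ ≤ q * (q : ℝ) ^ 16 := by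
                have : C ≤ q := by linarith
                gcongr
            _ = (q : ℝ) ^ 17 := by ring
        exact lt_of_le_of_lt (hb1.trans h2) h1
      · have hc' : |x| ≤ 1 - 1 / (q : ℝ) ^ 40 := le_of_lt (not_le.1 hc)
        have h1 : 1 / (q : ℝ) < |pol a n x| := by
          by_contra hcon
          exact g3 ⟨x, by simp, hx1, hdx, not_lt.1 hcon⟩
        have h2 : |x| ^ n ≤ Real.exp (-(q : ℝ)) := by
          refine (pow_le_exp (abs_nonneg x) hc' n).trans ?_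
          apply Real.exp_le_exp.2
          have h3 : (q : ℝ) ≤ 1 / (q : ℝ) ^ 40 * n := by
            rw [one_div_mul_eq_div, le_div_iff₀ (by positivity)]
            calc (q : ℝ) * (q : ℝ) ^ 40 = (q : ℝ) ^ 41 := by ring
              _ ≤ (q : ℝ) ^ 50 := pow_le_pow_right₀ hq1 (by norm_num)
              _ ≤ n := hn1'
          linarith
        have h4 : |x| ^ n * (C * (q : ℝ) ^ 16) < 1 / (q : ℝ) := by
          rw [lt_div_iff₀ hq0]
          calc |x| ^ n * (C * (q : ℝ) ^ 16) * q ≤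
                Real.exp (-(q : ℝ)) * (C * (q : ℝ) ^ 16) * q := by gcongr
            _ = C * (q : ℝ) ^ 17 * Real.exp (-(q : ℝ)) := by ring
            _ < 1 := hq3
        exact lt_trans (lt_of_le_of_lt hb1 h4) h1
  -- (iii)
  have hstab : ∀ (α β : ℝ) (l : ℕ), α ≤ β → (∀ y ∈ Set.Icc α β, rr q ≤ |y| ∧ |y| ≤ 1) →
      Zr (pol (rv a n) n) (Set.Icc α β) l →
      Zr (pol (rv a (n + m)) (n + m)) (Set.Icc α β) (l - 2) := by
    intro α β l hαβ hy hz
    have hne : ∀ y ∈ Set.Icc α β, y ^ m ≠ 0 := by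
      intro y hy'
      apply pow_ne_zero
      have := (hy y hy').1
      intro h0
      rw [h0, abs_zero] at this
      linarith
    have h := hT (pol (rv a n) n) (fun y => pol (rv a (n + m)) m y / y ^ m) α β l hαβ
      (pol_cd _ _) ?_ ?_ hz
    · obtain ⟨S, hS1, hS2⟩ := h
      refine ⟨S, hS1, fun y hyS => ⟨(hS2 y hyS).1, ?_⟩⟩
      have h1 := (hS2 y hyS).2
      have h2 := hne y (hS2 y hyS).1
      rw [qn_split]
      have h3 : pol (rv a (n + m)) m y + y ^ m * pol (rv a n) n y =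
          y ^ m * (pol (rv a n) n y + pol (rv a (n + m)) m y / y ^ m) := by
        field_simp
        ring
      rw [h3]
      simp only at h1
      rw [h1, mul_zero]
    · apply ContinuousOn.div
      · exact (pol_cont _ _).continuousOn
      · fun_prop
      · exact hne
    · intro y hy' hdy
      obtain ⟨hy1, hy2⟩ := hy y hy'
      have h1 : (q : ℝ) ^ 5 < |pol (rv a n) n y| := by
        by_contra hcon
        exact g5 ⟨y, hy1, hy2, hdy, not_lt.1 hcon⟩
      have h2 : |pol (rv a (n + m)) m y / y ^ m| ≤ (q : ℝ) ^ 5 := by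
        rw [abs_div, abs_pow]
        have h3 : 1 / 2 ≤ |y| ^ m := hrm.trans (pow_le_pow_left₀ hr_pos.le hy1 m)
        rw [div_le_iff₀ (by linarith)]
        have h4 := s2 y hy2
        have h5 : Real.sqrt m = (q : ℝ) ^ 4 := by
          rw [hmr]
          rw [show (q : ℝ) ^ 8 = ((q : ℝ) ^ 4) ^ 2 by ring]
          exact Real.sqrt_sq (by positivity)
        rw [h5] at h4
        refine h4.trans ?_
        calc C * (q : ℝ) ^ 4 = (2 * C) * (q : ℝ) ^ 4 * (1 / 2) := by ring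
          _ ≤ q * (q : ℝ) ^ 4 * (1 / 2) := by gcongr
          _ = (q : ℝ) ^ 5 * (1 / 2) := by ring
          _ ≤ (q : ℝ) ^ 5 * |y| ^ m := by gcongr
      exact lt_of_le_of_lt h2 h1
  have hZ2 : Zr (pol (rv a (n + m)) (n + m)) (Set.Icc (rr q) 1) (k₂ - 2) := by
    apply hstab _ _ _ hr_lt.le _ hz2
    intro y hy
    rw [abs_of_nonneg (hr_pos.le.trans hy.1)]
    exact ⟨hy.1, hy.2⟩
  have hZ3 : Zr (pol (rv a (n + m)) (n + m)) (Set.Icc (-1) (-rr q)) (k₃ - 2) := by
    apply hstab _ _ _ (by linarith) _ hz3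
    intro y hy
    have : y ≤ 0 := by linarith [hy.2]
    rw [abs_of_nonpos this]
    exact ⟨by linarith [hy.2], by linarith [hy.1]⟩
  -- (iv)
  have hyJ : ∀ j, j ≤ J → yy j ≤ 1 - 1 / (q : ℝ) ^ 4 := by
    intro j hj
    unfold yy
    have h1 : Real.exp (-(Real.pi / 6 * J)) ≤ Real.exp (-(Real.pi / 6 * j)) := by
      apply Real.exp_le_exp.2
      have h2 : (j : ℝ) ≤ J := by exact_mod_cast hj
      have h3 : Real.pi / 6 * j ≤ Real.pi / 6 * J := by
        apply mul_le_mul_of_nonneg_left h2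
        have := Real.pi_pos
        positivity
      linarith
    have h4 : 1 / (q : ℝ) ^ 4 ≤ Real.exp (-(Real.pi / 6 * J)) := by
      rw [Real.exp_neg, ← one_div]
      exact one_div_le_one_div_of_le (Real.exp_pos _) hexp
    linarith
  have hZ4 : Zr (pol (rv a (n + m)) (n + m)) (Set.Icc (yy 1) (yy J)) (J - 1) := by
    apply hA _ _ _ hJ yy_mono (pol_cont _ _).continuousOn
    intro j hj1 hj2
    have hy0 := yy_pos hj1
    have hyl := hyJ j hj2
    have hy1 : yy j ≤ 1 := yy_lt.le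
    rw [qn_split]
    have h1 := s1 j hj1 hj2
    have h2 : |(-1) ^ j * (yy j ^ m * pol (rv a n) n (yy j))| < 1 := by
      rw [abs_mul, abs_pow, abs_neg, abs_one, one_pow, one_mul, abs_mul]
      rw [abs_of_nonneg (pow_nonneg hy0.le m)]
      have h3 := abs_pol_le g6 hy0.le hy1
      have h4 : yy j ^ m ≤ Real.exp (-(q : ℝ)) := by
        refine (pow_le_exp hy0.le hyl m).trans ?_
        apply Real.exp_le_exp.2
        have h5 : (q : ℝ) ≤ 1 / (q : ℝ) ^ 4 * m := by
          rw [one_div_mul_eq_div, le_div_iff₀ (by positivity), hmr]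
          calc (q : ℝ) * (q : ℝ) ^ 4 = (q : ℝ) ^ 5 := by ring
            _ ≤ (q : ℝ) ^ 8 := pow_le_pow_right₀ hq1 (by norm_num)
        linarith
      have h6 : (n : ℝ) * n ≤ 4 * (q : ℝ) ^ (2 * K) := by
        calc (n : ℝ) * n ≤ (2 * (q : ℝ) ^ K) * (2 * (q : ℝ) ^ K) := by gcongr
          _ = 4 * (q : ℝ) ^ (2 * K) := by
              rw [two_mul K, pow_add]; ring
      calc yy j ^ m * |pol (rv a n) n (yy j)| ≤ Real.exp (-(q : ℝ)) * (4 * (q : ℝ) ^ (2 * K)) := by
            apply mul_le_mul h4 (h3.trans h6) (abs_nonneg _) (Real.exp_pos _).le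
        _ = 4 * (q : ℝ) ^ (2 * K) * Real.exp (-(q : ℝ)) := by ring
        _ < 1 := hq4
    have h7 := (abs_lt.1 h2).1
    rw [mul_add]
    linarith
  -- (v)
  have hc' : yy J < rr q := by
    have h1 := hyJ J le_rfl
    unfold rr
    have h2 : 1 / (q : ℝ) ^ 12 < 1 / (q : ℝ) ^ 4 := by
      apply one_div_lt_one_div_of_lt (by positivity)
      exact pow_lt_pow_right₀ (by linarith) (by norm_num)
    linarith
  have hc1 : yy 1 ≤ yy J := yy_mono.monotone hJ
  have := hb a (n + m) (k₁ - 2) (k₂ - 2) (k₃ - 2) (J - 1) (rr q) (yy 1) (by omega) hr_pos hr_lt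
    (yy_pos le_rfl) (lt_of_le_of_lt hc1 hc') hZ1 hZ2 hZ3 ⟨yy J, hc', hZ4⟩
  exact zr_mono (by omega) this

end Pool.Agent.W494.KZ
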